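import Pool.Agent.Helper65.CG.Defs2

/-!
# Project UB, module UB-B1: pushing weights forward, mixtures, a bound for binomial coefficients
-/

set_option autoImplicit false

namespace Pool.Agent.Helper65.CG

open scoped Classical
open Pool.Agent.Helper65.CliqueGame

variable {n q m : ℕ}

theorem push {ι : Type} [Fintype ι] (α : ι → ℝ) (hα : ∀ i, 0 ≤ α i)
    (U : ι → Finset (Sym2 (Fin n))) :
    ∃ β : Finset (Sym2 (Fin n)) → ℝ, (∀ W, 0 ≤ β W) ∧ ∑ W, β W = ∑ i, α i ∧
      ∀ (ℓ : Sym2 (Fin n) → ℕ) (T : Finset ι), (∀ i ∈ T, Alive ℓ (U i)) →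
        ∑ i ∈ T, α i * (2 : ℝ) ^ (ga ℓ (U i)) ≤ val β ℓ := by
  refine ⟨fun W => ∑ i ∈ Finset.univ.filter (fun i => U i = W), α i, ?_, ?_, ?_⟩
  · intro W
    exact Finset.sum_nonneg fun i _ => hα i
  · exact Finset.sum_fiberwise _ _ _
  · intro ℓ T hT
    have h1 : val (fun W => ∑ i ∈ Finset.univ.filter (fun i => U i = W), α i) ℓ =
        ∑ i, if Alive ℓ (U i) then α i * (2 : ℝ) ^ (ga ℓ (U i)) else 0 := by
      rw [← Finset.sum_fiberwise Finset.univ U]
      unfold val
      apply Finset.sum_congr rfl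
      intro W _
      by_cases hW : Alive ℓ W
      · rw [if_pos hW, Finset.sum_mul]
        apply Finset.sum_congr rfl
        intro i hi
        have hi' := (Finset.mem_filter.1 hi).2
        rw [hi', if_pos hW]
      · rw [if_neg hW]
        symm
        apply Finset.sum_eq_zero
        intro i hi
        have hi' := (Finset.mem_filter.1 hi).2
        rw [hi', if_neg hW]
    rw [h1]
    have h2 : ∑ i ∈ T, α i * (2 : ℝ) ^ (ga ℓ (U i)) =
        ∑ i ∈ T, if Alive ℓ (U i) then α i * (2 : ℝ) ^ (ga ℓ (U i)) else 0 := by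
      apply Finset.sum_congr rfl
      intro i hi
      rw [if_pos (hT i hi)]
    rw [h2]
    apply Finset.sum_le_univ_sum_of_nonneg
    intro i
    split_ifs
    · exact mul_nonneg (hα i) (Real.rpow_nonneg (by norm_num) _)
    · exact le_rfl

theorem mix {κ : Type} [Fintype κ] [Nonempty κ] (β : κ → Finset (Sym2 (Fin n)) → ℝ)
    (h0 : ∀ k W, 0 ≤ β k W) (h1 : ∀ k, ∑ W, β k W ≤ 1) :
    ∃ β' : Finset (Sym2 (Fin n)) → ℝ, (∀ W, 0 ≤ β' W) ∧ ∑ W, β' W ≤ 1 ∧
      ∀ (ℓ : Sym2 (Fin n) → ℕ) (k : κ), val (β k) ℓ ≤ Fintype.card κ * val β' ℓ := by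
  have hc : (0 : ℝ) < Fintype.card κ := by exact_mod_cast Fintype.card_pos
  refine ⟨fun W => (∑ k, β k W) / Fintype.card κ, ?_, ?_, ?_⟩
  · intro W
    exact div_nonneg (Finset.sum_nonneg fun k _ => h0 k W) hc.le
  · rw [← Finset.sum_div, Finset.sum_comm, div_le_one hc]
    calc ∑ k, ∑ W, β k W ≤ ∑ _k : κ, (1 : ℝ) := Finset.sum_le_sum fun k _ => h1 k
      _ = Fintype.card κ := by rw [Finset.sum_const, Finset.card_univ, nsmul_eq_mul, mul_one]
  · intro ℓ k
    have hval : ∀ k, 0 ≤ val (β k) ℓ := by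
      intro k
      unfold val
      apply Finset.sum_nonneg
      intro W _
      split_ifs
      · exact mul_nonneg (h0 k W) (Real.rpow_nonneg (by norm_num) _)
      · exact le_rfl
    have h2 : (Fintype.card κ : ℝ) * val (fun W => (∑ k, β k W) / Fintype.card κ) ℓ =
        ∑ k, val (β k) ℓ := by
      unfold val
      rw [Finset.mul_sum, Finset.sum_comm]
      apply Finset.sum_congr rfl
      intro W _
      by_cases hW : Alive ℓ W
      · simp only [if_pos hW]
        rw [← Finset.sum_mul]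
        field_simp
      · simp only [if_neg hW, mul_zero, Finset.sum_const_zero]
    rw [h2]
    exact Finset.single_le_sum (fun k _ => hval k) (Finset.mem_univ k)

theorem choose_bound (n k : ℕ) (hk : 1 ≤ k) (hkn : k ≤ n) :
    lb (n.choose k) ≤ k * (Lg n - lb k + 2) := by
  have hk0 : (0 : ℝ) < k := by exact_mod_cast hk
  have hn0 : (0 : ℝ) < n := by exact_mod_cast (lt_of_lt_of_le hk hkn)
  have hf : (0 : ℝ) < (k.factorial : ℝ) := by exact_mod_cast Nat.factorial_pos k
  have hC : (0 : ℝ) < (n.choose k : ℝ) := by exact_mod_cast Nat.choose_pos hkn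
  have h1 : (n.choose k : ℝ) ≤ (n : ℝ) ^ k / (k.factorial : ℝ) := Nat.choose_le_pow_div k n
  have h2 := Real.log_le_log hC h1
  rw [Real.log_div (by positivity) hf.ne', Real.log_pow] at h2
  have h3 := Real.pow_div_factorial_le_exp (k : ℝ) hk0.le k
  have h4 := Real.log_le_log (by positivity) h3
  rw [Real.log_exp, Real.log_div (by positivity) hf.ne', Real.log_pow] at h4
  have h5 : Real.log (n.choose k : ℝ) ≤ k * (Real.log n - Real.log k + 1) := by linarith
  have hl : 0 < Real.log 2 := Real.log_pos (by norm_num)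
  have hl2 : 1 / 2 ≤ Real.log 2 := by
    have := Real.log_two_gt_d9
    linarith
  unfold lb Lg Real.logb
  rw [div_le_iff₀ hl]
  have h6 : (k : ℝ) * (Real.log n / Real.log 2 - Real.log k / Real.log 2 + 2) * Real.log 2 =
      k * (Real.log n - Real.log k + 2 * Real.log 2) := by
    field_simp
  rw [h6]
  have h7 : (k : ℝ) * (Real.log n - Real.log k + 1) ≤
      k * (Real.log n - Real.log k + 2 * Real.log 2) := by
    apply mul_le_mul_of_nonneg_left _ hk0.le
    linarith
  linarith

end Pool.Agent.Helper65.CG
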